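import Pool.Agent.Results.MP_75a0ab_co.NotDense

/-!
# `H_sep(K) ≥ 2 d` for every symmetric convex body (Auerbach bases)
-/

set_option autoImplicit false

open Set

namespace Pool.Agent.T9h93.SH

open Pool.Agent.Results.MP_75a0ab_co.NotDense

/-- Touching translates `2 y i + K` with the sign conditions form a configuration. -/
lemma config_of' {d : ℕ} {ι : Type} [Fintype ι] {K : Set (E d)} (hK : ∀ x ∈ K, -x ∈ K) (y : ι → E d)
    (f : ι → (E d →L[ℝ] ℝ)) (hy : ∀ i, y i ∈ K) (hmax : ∀ i, ∀ x ∈ K, f i x ≤ f i (y i))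
    (hpos : ∀ i, 0 < f i (y i)) (hneg : ∀ i j, i ≠ j → f i (y j) ≤ 0) :
    ∃ V : Finset (E d), V.card = Fintype.card ι ∧ IsSepHadwigerConfig K V := by
  classical
  have hinj : Function.Injective (fun i => (2 : ℝ) • y i) := by
    intro i j hij
    by_contra hne
    have h1 : y i = y j := by
      have := congrArg (fun z => (1 / 2 : ℝ) • z) hij
      simpa [smul_smul] using this
    have h2 := hneg i j hne
    rw [← h1] at h2
    exact absurd (hpos i) (not_lt.mpr h2)
  have hf0 : ∀ i, f i ≠ 0 := by
    intro i h0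
    have := hpos i
    rw [h0] at this
    simp at this
  have hmin : ∀ i, ∀ x ∈ K, -(f i (y i)) ≤ f i x := by
    intro i x hx
    have := hmax i _ (hK x hx)
    rw [map_neg] at this
    linarith
  let W : Set (E d) := insert 0 ((Finset.univ.image (fun i => (2 : ℝ) • y i) : Finset (E d)) : Set (E d))
  have hW : ∀ w ∈ W, w = 0 ∨ ∃ i, w = (2 : ℝ) • y i := by
    intro w hw
    rcases hw with hw | hw
    · exact Or.inl hw
    · right
      simp only [Finset.coe_image, Finset.coe_univ, image_univ, mem_range] at hw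
      obtain ⟨i, hi⟩ := hw
      exact ⟨i, hi.symm⟩
  -- the translate by `2 y i` lies above the hyperplane
  have up : ∀ i, ∀ x ∈ tr K ((2 : ℝ) • y i), f i (y i) ≤ f i x := by
    rintro i _ ⟨x, hx, rfl⟩
    have := hmin i x hx
    simp only [map_add, map_smul, smul_eq_mul]
    linarith
  -- all others lie below
  have down : ∀ i, ∀ w ∈ W, w ≠ (2 : ℝ) • y i → ∀ x ∈ tr K w, f i x ≤ f i (y i) := by
    rintro i w hw hne _ ⟨x, hx, rfl⟩
    have h1 := hmax i x hx
    rcases hW w hw with rfl | ⟨j, rfl⟩
    · simpa using h1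
    · have hij : i ≠ j := by
        rintro rfl
        exact hne rfl
      have := hneg i j hij
      simp only [map_add, map_smul, smul_eq_mul]
      linarith
  have miss : ∀ i, ∀ w ∈ W, Disjoint (interior (tr K w)) {x | f i x = f i (y i)} := by
    intro i w hw
    rw [Set.disjoint_left]
    intro x hx hx'
    have hx' : f i x = f i (y i) := hx'
    by_cases h : w = (2 : ℝ) • y i
    · subst h
      have hneg' : -(f i) ≠ 0 := neg_ne_zero.mpr (hf0 i)
      have := interior_le (c := -(f i (y i))) hneg' (fun x hx => by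
        have := up i x hx
        show (-(f i)) x ≤ -(f i (y i))
        simp only [neg_apply]
        linarith) x hx
      simp only [neg_apply] at this
      linarith
    · have := interior_le (hf0 i) (down i w hw h) x hx
      linarith
  have hsep : IsTotallySeparable K W := by
    intro u hu v hv huv
    rcases hW v hv with hv0 | ⟨j, hvj⟩
    · rcases hW u hu with hu0 | ⟨i, hui⟩
      · exact absurd (hu0.trans hv0.symm) huv
      · refine ⟨-(f i), -(f i (y i)), neg_ne_zero.mpr (hf0 i), ?_, ?_, ?_⟩
        · intro x hx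
          rw [hui] at hx
          have := up i x hx
          simp only [neg_apply]
          linarith
        · intro x hx
          have := down i v hv (fun h => huv (hui.trans h.symm)) x hx
          simp only [neg_apply]
          linarith
        · intro w hw
          have := miss i w hw
          simpa [neg_inj] using this
    · refine ⟨f j, f j (y j), hf0 j, ?_, ?_, miss j⟩
      · exact down j u hu (fun h => huv (h.trans hvj.symm))
      · rw [hvj]
        exact up j
  refine ⟨Finset.univ.image (fun i => (2 : ℝ) • y i), ?_, ?_, ?_, ?_, hsep⟩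
  · rw [Finset.card_image_of_injective _ hinj]
    simp
  · intro h0
    simp only [Finset.mem_image, Finset.mem_univ, true_and] at h0
    obtain ⟨i, hi⟩ := h0
    have := hpos i
    have h1 : y i = 0 := by
      have := congrArg (fun z => (1 / 2 : ℝ) • z) hi
      simpa [smul_smul] using this
    rw [h1] at this
    simp at this
  · intro v hv
    simp only [Finset.mem_image, Finset.mem_univ, true_and] at hv
    obtain ⟨i, rfl⟩ := hv
    refine ⟨y i, ⟨-(y i), hK _ (hy i), ?_⟩, hy i⟩
    module
  · intro u hu v hv huv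
    obtain ⟨g, c, hg, h1, h2, _⟩ := hsep u hu v hv huv
    rw [Set.disjoint_left]
    intro x hx hx'
    have a1 := interior_le hg h1 x hx
    have a2 := interior_le (c := -c) (neg_ne_zero.mpr hg) (fun x hx => by
        have := h2 x hx
        show (-g) x ≤ -c
        simp only [neg_apply]
        linarith) x hx'
    simp only [neg_apply] at a2
    linarith



/-- the determinant of `d` vectors -/
noncomputable def dt {d : ℕ} (v : Fin d → E d) : ℝ :=
  Matrix.detRowAlternating (fun k => (v k : Fin d → ℝ))

lemma dt_continuous {d : ℕ} : Continuous (dt (d := d)) := by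
  unfold dt
  have h : Continuous (fun v : Fin d → E d => (Matrix.of fun (k : Fin d) (j : Fin d) => v k j)) := by
    refine continuous_matrix fun k j => ?_
    exact (continuous_apply j).comp ((PiLp.continuous_ofLp 2 _).comp (continuous_apply k))
  exact h.matrix_det

/-- the coordinate functional of the `i`-th vector (not normalised) -/
noncomputable def lf {d : ℕ} (v : Fin d → E d) (i : Fin d) : E d →ₗ[ℝ] ℝ :=
  ((Matrix.detRowAlternating (n := Fin d) (R := ℝ)).toMultilinearMap.toLinearMap
    (fun k => (v k : Fin d → ℝ)) i) ∘ₗ (WithLp.linearEquiv 2 ℝ (Fin d → ℝ)).toLinearMap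

lemma lf_apply {d : ℕ} (v : Fin d → E d) (i : Fin d) (x : E d) :
    lf v i x = dt (Function.update v i x) := by
  have h : (Function.update (fun k => ((v k : E d) : Fin d → ℝ)) i (x : Fin d → ℝ)) =
      fun k => ((Function.update v i x k : E d) : Fin d → ℝ) := by
    funext k
    by_cases h : k = i
    · subst h
      simp
    · simp [Function.update_of_ne h]
  show Matrix.detRowAlternating (Function.update (fun k => ((v k : E d) : Fin d → ℝ)) i
    (x : Fin d → ℝ)) = Matrix.detRowAlternating (fun k => ((Function.update v i x k : E d) : Fin d → ℝ))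
  rw [h]

lemma dt_neg {d : ℕ} (v : Fin d → E d) (i : Fin d) (x : E d) :
    dt (Function.update v i (-x)) = - dt (Function.update v i x) := by
  rw [← lf_apply, ← lf_apply, map_neg]

lemma exists_ball {d : ℕ} (K : SymBody d) : ∃ ρ : ℝ, 0 < ρ ∧ ∀ x : E d, ‖x‖ < ρ → x ∈ K.1 := by
  obtain ⟨c, hc⟩ := K.2.1
  rw [mem_interior_iff_mem_nhds, Metric.mem_nhds_iff] at hc
  obtain ⟨ρ, hρ, hb⟩ := hc
  refine ⟨ρ, hρ, fun x hx => ?_⟩
  have h1 : c + x ∈ (K.1 : Set (E d)) := hb (by simpa [Metric.mem_ball, dist_eq_norm] using hx)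
  have h2 : c - x ∈ (K.1 : Set (E d)) := hb (by simpa [Metric.mem_ball, dist_eq_norm] using hx)
  have h3 : -(c - x) ∈ (K.1 : Set (E d)) := K.2.2 _ h2
  have h4 := K.1.convex h1 h3 (by norm_num : (0:ℝ) ≤ 1/2) (by norm_num : (0:ℝ) ≤ 1/2) (by norm_num)
  have h5 : (1/2 : ℝ) • (c + x) + (1/2 : ℝ) • (-(c - x)) = x := by module
  rw [h5] at h4
  exact h4

/-- Auerbach bases -/
lemma auerbach {d : ℕ} (K : SymBody d) : ∃ (v : Fin d → E d) (f : Fin d → (E d →L[ℝ] ℝ)),
    (∀ i, v i ∈ K.1) ∧ (∀ i j, f i (v j) = if i = j then 1 else 0) ∧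
      ∀ i, ∀ x ∈ K.1, |f i x| ≤ 1 := by
  obtain ⟨ρ, hρ, hb⟩ := exists_ball K
  have hcomp : IsCompact (Set.pi Set.univ (fun _ : Fin d => (K.1 : Set (E d)))) :=
    isCompact_univ_pi fun _ => K.1.isCompact
  set e : Fin d → E d := fun i => (ρ / 2) • EuclideanSpace.single i (1 : ℝ) with he
  have heK : e ∈ Set.pi Set.univ (fun _ : Fin d => (K.1 : Set (E d))) := by
    intro i _
    refine hb _ ?_
    rw [he]
    simp only [norm_smul, PiLp.norm_single, norm_one, mul_one, Real.norm_eq_abs]
    rw [abs_of_pos (by positivity)]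
    linarith
  have hde : 0 < dt e := by
    have h1 : (fun k => ((e k : E d) : Fin d → ℝ)) = fun k => (ρ / 2) • (Pi.single k (1 : ℝ) : Fin d → ℝ) := by
      funext k
      rw [he]
      ext j
      simp [Pi.single_apply]
    unfold dt
    rw [h1]
    have h2 := (Matrix.detRowAlternating (n := Fin d) (R := ℝ)).toMultilinearMap.map_smul_univ
      (fun _ : Fin d => ρ / 2) (fun k => (Pi.single k (1 : ℝ) : Fin d → ℝ))
    have h3 : (Matrix.detRowAlternating (n := Fin d) (R := ℝ)).toMultilinearMap
        (fun k => (Pi.single k (1 : ℝ) : Fin d → ℝ)) = 1 := by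
      have : (fun k => (Pi.single k (1 : ℝ) : Fin d → ℝ)) = (1 : Matrix (Fin d) (Fin d) ℝ) := by
        funext k j
        simp [Matrix.one_apply, Pi.single_apply, eq_comm]
      rw [this]
      exact Matrix.det_one
    rw [h3] at h2
    have h4 : Matrix.detRowAlternating (fun k => (ρ / 2) • (Pi.single k (1 : ℝ) : Fin d → ℝ)) =
      (∏ _i : Fin d, ρ / 2) • (1 : ℝ) := h2
    rw [h4, smul_eq_mul, mul_one]
    exact Finset.prod_pos fun _ _ => by positivity
  obtain ⟨v, hv, hmax⟩ := hcomp.exists_isMaxOn ⟨e, heK⟩ dt_continuous.continuousOn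
  have hvK : ∀ i, v i ∈ K.1 := fun i => hv i (Set.mem_univ i)
  have hD : 0 < dt v := lt_of_lt_of_le hde (hmax heK)
  have hup : ∀ i, ∀ x ∈ K.1, |lf v i x| ≤ dt v := by
    intro i x hx
    have h1 : ∀ x ∈ K.1, lf v i x ≤ dt v := by
      intro x hx
      rw [lf_apply]
      refine hmax ?_
      intro k _
      by_cases h : k = i
      · subst h
        rw [Function.update_self]
        exact hx
      · rw [Function.update_of_ne h]
        exact hvK k
    rw [abs_le]
    refine ⟨?_, h1 x hx⟩
    have := h1 (-x) (K.2.2 x hx)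
    rw [map_neg] at this
    linarith
  refine ⟨v, fun i => (dt v)⁻¹ • (lf v i).toContinuousLinearMap, hvK, fun i j => ?_, fun i x hx => ?_⟩
  · show (dt v)⁻¹ * lf v i (v j) = _
    rw [lf_apply]
    by_cases h : i = j
    · subst h
      rw [Function.update_eq_self, if_pos rfl, inv_mul_cancel₀ hD.ne']
    · rw [if_neg h]
      have : dt (Function.update v i (v j)) = 0 := by
        unfold dt
        refine Matrix.detRowAlternating.map_eq_zero_of_eq _ (i := i) (j := j) ?_ h
        rw [Function.update_self, Function.update_of_ne (Ne.symm h)]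
      rw [this, mul_zero]
  · show |(dt v)⁻¹ * lf v i x| ≤ 1
    rw [abs_mul, abs_of_pos (inv_pos.mpr hD)]
    rw [inv_mul_le_iff₀ hD, mul_one]
    exact hup i x hx

/-- `H_sep(K) ≥ 2 d` -/
theorem two_mul_le (d : ℕ) (K : SymBody d) : 2 * (d : ℕ∞) ≤ Hsep (K.1 : Set (E d)) := by
  obtain ⟨v, f, hv, hf, hb⟩ := auerbach K
  obtain ⟨V, hV, hc⟩ := config_of' (ι := Fin d × Bool) (K := (K.1 : Set (E d))) K.2.2
    (fun p => if p.2 then v p.1 else -(v p.1)) (fun p => if p.2 then f p.1 else -(f p.1)) (by
      rintro ⟨i, b⟩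
      cases b
      · simpa using K.2.2 _ (hv i)
      · simpa using hv i) (by
      rintro ⟨i, b⟩ x hx
      have h1 := abs_le.1 (hb i x hx)
      have h2 := hf i i
      rw [if_pos rfl] at h2
      cases b
      · simp [h2]
        linarith
      · simp [h2]
        linarith) (by
      rintro ⟨i, b⟩
      have h2 := hf i i
      rw [if_pos rfl] at h2
      cases b
      · simp [h2]
      · simp [h2]) (by
      rintro ⟨i, b⟩ ⟨j, b'⟩ hne
      by_cases h : i = j
      · subst h
        have h2 := hf i i
        rw [if_pos rfl] at h2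
        cases b <;> cases b'
        · exact absurd rfl hne
        · simp [h2]
        · simp [h2]
        · exact absurd rfl hne
      · have h2 := hf i j
        rw [if_neg h] at h2
        cases b <;> cases b' <;> simp [h2])
  have h1 : (V.card : ℕ∞) ≤ Hsep (K.1 : Set (E d)) :=
    le_iSup₂ (f := fun (V : Finset (E d)) (_ : IsSepHadwigerConfig (K.1 : Set (E d)) V) =>
      (V.card : ℕ∞)) V hc
  rw [hV] at h1
  refine le_trans (le_of_eq ?_) h1
  simp [mul_comm]

end Pool.Agent.T9h93.SH
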