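import Mathlib

/-!
# The rank of a matrix with unit diagonal and off-diagonal entries in `[-1, 0]`
-/

set_option autoImplicit false

namespace Pool.Agent.T9h93.SH

open Finset

/-- A real `m × m` matrix with unit diagonal and off-diagonal entries in `[-1, 0]` which factors
through `ℝ ^ r` has `8 (m - 4) ≤ r m`. -/
theorem rank_bound_real {m r : ℕ} (F : Fin m → Fin r → ℝ) (X : Fin r → Fin m → ℝ) (M : Fin m → Fin m → ℝ)
    (hM : ∀ i j, M i j = ∑ k, F i k * X k j) (h1 : ∀ i, M i i = 1)
    (h2 : ∀ i j, i ≠ j → -1 ≤ M i j ∧ M i j ≤ 0) : 8 * ((m : ℝ) - 4) ≤ r * m := by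
  rcases Nat.eq_zero_or_pos m with hm0 | hm0
  · subst hm0
    simp
  have hm : (0 : ℝ) < m := by exact_mod_cast hm0
  set v : Fin m → EuclideanSpace ℝ (Fin m) := fun j => WithLp.toLp 2 (fun i => M i j) with hv
  set c : Fin r → EuclideanSpace ℝ (Fin m) := fun k => WithLp.toLp 2 (fun i => F i k) with hc
  have hvc : ∀ j, v j = ∑ k, X k j • c k := by
    intro j
    ext i
    simp only [hv, hc, WithLp.ofLp_sum, WithLp.ofLp_smul, Finset.sum_apply, Pi.smul_apply, smul_eq_mul]
    rw [hM]
    exact sum_congr rfl fun k _ => mul_comm _ _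
  set U : Submodule ℝ (EuclideanSpace ℝ (Fin m)) := Submodule.span ℝ (Set.range c) with hU
  have hvU : ∀ j, v j ∈ U := by
    intro j
    rw [hvc j]
    exact Submodule.sum_mem _ fun k _ => Submodule.smul_mem _ _ (Submodule.subset_span ⟨k, rfl⟩)
  have hdim : Module.finrank ℝ U ≤ r := by
    have := finrank_range_le_card (R := ℝ) c
    rw [Fintype.card_fin] at this
    exact this
  set b := stdOrthonormalBasis ℝ U with hb
  set B : Fin (Module.finrank ℝ U) → EuclideanSpace ℝ (Fin m) := fun k => (b k : EuclideanSpace ℝ (Fin m)) with hB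
  have hBo : Orthonormal ℝ B := b.orthonormal.comp_linearIsometry U.subtypeₗᵢ
  have hexp : ∀ j, v j = ∑ k, (inner ℝ (B k) (v j) : ℝ) • B k := by
    intro j
    have h3 := b.sum_repr' (⟨v j, hvU j⟩ : U)
    have h4 := congrArg (fun x : U => (x : EuclideanSpace ℝ (Fin m))) h3
    simp only [Submodule.coe_sum, Submodule.coe_smul] at h4
    rw [← h4]
    refine sum_congr rfl fun k _ => ?_
    rw [h4]
    rfl
  set S : ℝ := ∑ i, ∑ j, (if i = j then 0 else -(M i j)) with hS
  have hS0 : 0 ≤ S := by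
    refine sum_nonneg fun i _ => sum_nonneg fun j _ => ?_
    split_ifs with h
    · exact le_rfl
    · linarith [(h2 i j h).2]
  -- the sum of the entries
  have hsum : ∑ i, ∑ j, M i j = m - S := by
    have h3 : ∀ i j, M i j = (if i = j then 1 else 0) - (if i = j then 0 else -(M i j)) := by
      intro i j
      split_ifs with h
      · subst h
        rw [h1]
        ring
      · ring
    calc ∑ i, ∑ j, M i j = ∑ i, ∑ j, ((if i = j then (1 : ℝ) else 0) - (if i = j then 0 else -(M i j))) :=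
          sum_congr rfl fun i _ => sum_congr rfl fun j _ => h3 i j
      _ = m - S := by
          simp_rw [sum_sub_distrib]
          rw [hS]
          congr 1
          simp
  have hsq : ∑ i, ∑ j, M i j ^ 2 ≤ m + S := by
    have h3 : ∀ i j, M i j ^ 2 ≤ (if i = j then 1 else 0) + (if i = j then 0 else -(M i j)) := by
      intro i j
      split_ifs with h
      · subst h
        rw [h1]
        norm_num
      · have := h2 i j h
        nlinarith
    calc ∑ i, ∑ j, M i j ^ 2 ≤ ∑ i, ∑ j, ((if i = j then (1 : ℝ) else 0) + (if i = j then 0 else -(M i j))) :=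
          sum_le_sum fun i _ => sum_le_sum fun j _ => h3 i j
      _ = m + S := by
          simp_rw [sum_add_distrib]
          rw [hS]
          congr 1
          simp
  -- the coordinates of the rotated basis vectors
  set w : Fin m → Fin (Module.finrank ℝ U) → ℝ := fun j k => B k j - 2 / m * ∑ i, B k i with hw
  have hwk : ∀ k, ∑ j, w j k ^ 2 = 1 := by
    intro k
    have h3 : ‖B k‖ ^ 2 = 1 := by rw [hBo.1 k]; norm_num
    rw [EuclideanSpace.norm_sq_eq] at h3
    simp only [Real.norm_eq_abs, sq_abs] at h3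
    set σ := ∑ i, B k i with hσ
    have h4 : ∀ j, w j k ^ 2 = B k j ^ 2 - (4 / m * σ) * B k j + (2 / m * σ) ^ 2 := by
      intro j
      simp only [hw]
      rw [← hσ]
      ring
    simp_rw [h4]
    rw [sum_add_distrib, sum_sub_distrib, ← mul_sum, ← hσ, h3, sum_const, card_univ, Fintype.card_fin,
      nsmul_eq_mul]
    field_simp
    ring
  have htr : ∑ j, ∑ k, (inner ℝ (B k) (v j) : ℝ) * w j k = m - 2 + 2 * S / m := by
    have h3 : ∀ j, ∑ k, (inner ℝ (B k) (v j) : ℝ) * w j k = M j j - 2 / m * ∑ i, M i j := by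
      intro j
      have h4 : ∀ i, M i j = ∑ k, (inner ℝ (B k) (v j) : ℝ) * B k i := by
        intro i
        have h5 := congrArg (fun x : EuclideanSpace ℝ (Fin m) => x i) (hexp j)
        simp only [WithLp.ofLp_sum, WithLp.ofLp_smul, Finset.sum_apply, Pi.smul_apply, smul_eq_mul] at h5
        exact h5
      simp only [hw, mul_sub]
      rw [sum_sub_distrib, ← h4 j]
      congr 1
      have h6 : ∑ i, M i j = ∑ k, (inner ℝ (B k) (v j) : ℝ) * ∑ i, B k i := by
        simp_rw [mul_sum]
        rw [sum_comm]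
        exact sum_congr rfl fun i _ => h4 i
      rw [h6, mul_sum]
      refine sum_congr rfl fun k _ => ?_
      ring
    simp_rw [h3]
    rw [sum_sub_distrib, ← mul_sum, sum_comm, hsum]
    simp only [h1, sum_const, card_univ, Fintype.card_fin, nsmul_eq_mul, mul_one]
    field_simp
    ring
  have hCS : (∑ j, ∑ k, (inner ℝ (B k) (v j) : ℝ) * w j k) ^ 2 ≤
      (∑ j, ∑ k, (inner ℝ (B k) (v j) : ℝ) ^ 2) * (∑ j, ∑ k, w j k ^ 2) := by
    have h3 := sum_mul_sq_le_sq_mul_sq (univ : Finset (Fin m × Fin (Module.finrank ℝ U)))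
      (fun p => (inner ℝ (B p.2) (v p.1) : ℝ)) (fun p => w p.1 p.2)
    simpa only [← univ_product_univ, sum_product] using h3
  have hw2 : ∑ j, ∑ k, w j k ^ 2 ≤ r := by
    rw [sum_comm]
    simp_rw [hwk]
    rw [sum_const, card_univ, Fintype.card_fin, nsmul_eq_mul, mul_one]
    exact_mod_cast hdim
  have hB2 : ∑ j, ∑ k, (inner ℝ (B k) (v j) : ℝ) ^ 2 ≤ m + S := by
    have e1 : ∑ j, ∑ k, (inner ℝ (B k) (v j) : ℝ) ^ 2 ≤ ∑ j, ‖v j‖ ^ 2 := by
      refine sum_le_sum fun j _ => ?_
      have := hBo.sum_inner_products_le (v j) (s := univ)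
      simpa only [Real.norm_eq_abs, sq_abs] using this
    have e2 : ∑ j, ‖v j‖ ^ 2 = ∑ i, ∑ j, M i j ^ 2 := by
      rw [sum_comm]
      refine sum_congr rfl fun j _ => ?_
      rw [EuclideanSpace.norm_sq_eq]
      refine sum_congr rfl fun i _ => ?_
      simp only [hv, Real.norm_eq_abs, sq_abs]
    rw [← e2] at hsq
    exact e1.trans hsq
  have hfin : ((m : ℝ) - 2 + 2 * S / m) ^ 2 ≤ (m + S) * r := by
    rw [← htr]
    refine hCS.trans (mul_le_mul hB2 hw2 ?_ (by positivity))
    exact sum_nonneg fun j _ => sum_nonneg fun k _ => sq_nonneg _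
  have hid : ((m : ℝ) - 2 + 2 * S / m) ^ 2 = 8 * ((m : ℝ) - 4) / m * (m + S) + (2 * S / m - (m - 6)) ^ 2 := by
    field_simp
    ring
  have h7 : 8 * ((m : ℝ) - 4) / m * (m + S) ≤ r * (m + S) := by
    nlinarith [sq_nonneg (2 * S / m - (m - 6))]
  have h8 : 8 * ((m : ℝ) - 4) / m ≤ r := le_of_mul_le_mul_right h7 (by linarith)
  rwa [div_le_iff₀ hm] at h8

/-- The same for a system of vectors and functionals of `ℝ ^ r`. -/
theorem rank_bound {m r : ℕ} (F X : Fin m → Fin r → ℝ) (h1 : ∀ i, ∑ k, F i k * X i k = 1)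
    (h2 : ∀ i j, i ≠ j → -1 ≤ ∑ k, F i k * X j k ∧ ∑ k, F i k * X j k ≤ 0) :
    8 * ((m : ℤ) - 4) ≤ r * m := by
  have h := rank_bound_real F (fun k j => X j k) (fun i j => ∑ k, F i k * X j k) (fun _ _ => rfl) h1 h2
  exact_mod_cast h

end Pool.Agent.T9h93.SH
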